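import Pool.Agent.H938.CC.Main

/-!
# The distance of the even Künneth projector from the algebraic operators, and cancellations in the
zeta functions of correspondences

Let `𝒜` be a smooth proper dg category over a perfect field, `V = V_+ ⊕ V_-` its `HP_±(𝒜)`, or
`TP_±(𝒜)[1/p]`, with coefficient field `K`, and let `d` be the least rank of an operator `π_+ - u`,
where `u` is a `K`-combination of the operators of elements of `K_0(𝒜ᵒᵖ ⊗ 𝒜)`. Then:

* the semisimplifications of `V_+` and `V_-` as modules over the algebra of these operators are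
  `C ⊕ X` and `C ⊕ Y` with `Hom(X, Y) = 0` and `dim C = d`;
* for matrices: the least rank of `π_+ - u` on `V^N`, where `u` is an `N × N` matrix of such
  combinations, is `N d`;
* for each `z` in `K_0(𝒜ᵒᵖ ⊗ 𝒜)` the zeta function `exp (∑ χ(z^n) t^n / n)`, where `χ(z^n)` is the
  intersection number of `z^n` with the diagonal, is a quotient `Q / P` of coprime rational polynomials
  with `deg P ≤ dim V_+ - d` and `deg Q ≤ dim V_- - d`, and both bounds are attained by the same `z`,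
  indeed by all integral combinations, outside of a hypersurface, of any family which spans;
* `C⁺_nc(𝒜)` holds if and only if `d = 0`.

Hence `d = dim V_+ - max deg P = dim V_- - max deg Q`: the distance of `π_+` from the algebraic
operators can be read off from intersection numbers, and `C⁺_nc(𝒜)` is equivalent to the existence of
one `z` in `K_0(𝒜ᵒᵖ ⊗ 𝒜)` whose zeta function has a denominator of degree `dim V_+`.
-/

set_option autoImplicit false

open Module Polynomial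

namespace Pool.Agent.Results.MP_8f22fa_ag.CancellationNumber

open Pool.Agent.H938.CC

/-- **The distance of the even Künneth projector and the zeta functions of correspondences.** -/
theorem result {K : Type} [Field K] [CharZero K] (𝒜 : NCData K) :
    𝒜.CommonPart 𝒜.dist ∧
    (∀ N : ℕ, IsLeast {r : ℕ | ∃ F : Matrix (Fin N) (Fin N) 𝒜.AlgT,
      errorRank K 𝒜.Plus 𝒜.Minus F = r} (N * 𝒜.dist)) ∧
    (∀ z : 𝒜.Corr, ∃ Q P : ℚ[X], 𝒜.IsZeta z Q P) ∧
    (∀ (z : 𝒜.Corr) (Q P : ℚ[X]), 𝒜.IsZeta z Q P →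
      P.natDegree + 𝒜.dist ≤ finrank K 𝒜.Plus ∧ Q.natDegree + 𝒜.dist ≤ finrank K 𝒜.Minus) ∧
    (∀ (m : ℕ) (z : Fin m → 𝒜.Corr), 𝒜.Spans z → ∃ F : MvPolynomial (Fin m) K, F ≠ 0 ∧
      ∀ n : Fin m → ℤ, MvPolynomial.eval (fun i => (n i : K)) F ≠ 0 →
        𝒜.Extremal (∑ i, n i • z i)) ∧
    (∃ z : 𝒜.Corr, 𝒜.Extremal z) ∧
    (𝒜.CPlus ↔ 𝒜.dist = 0) ∧
    (𝒜.CPlus ↔ ∃ (z : 𝒜.Corr) (Q P : ℚ[X]), 𝒜.IsZeta z Q P ∧ P.natDegree = finrank K 𝒜.Plus) := by
  obtain ⟨C, X, Y, i1, i2, i3, i4, i5, i6, i7, i8, i9, i10, i11, i12, i13, i14, i15, i16, i17, i18,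
    s⟩ := exists_split (k := K) (A := 𝒜.AlgT) 𝒜.Plus 𝒜.Minus
  have hd := 𝒜.dist_eq s
  have hgen : ∀ (m : ℕ) (z : Fin m → 𝒜.Corr), 𝒜.Spans z →
      ∃ F : MvPolynomial (Fin m) K, F ≠ 0 ∧ ∀ n : Fin m → ℤ,
        MvPolynomial.eval (fun i => (n i : K)) F ≠ 0 → 𝒜.Extremal (∑ i, n i • z i) := by
    intro m z hz
    obtain ⟨F, hF, hF'⟩ := 𝒜.generic_zeta s z hz
    refine ⟨F, hF, fun n hn Q P h => ?_⟩
    obtain ⟨h1, h2, h3⟩ := hF' n hn
    rw [hd]
    exact 𝒜.degree_eq s h h1 h2 h3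
  have hex : ∃ z : 𝒜.Corr, 𝒜.Extremal z := by
    obtain ⟨m, z, hz⟩ := 𝒜.exists_family
    obtain ⟨F, hF, hF'⟩ := hgen m z hz
    obtain ⟨n, hn⟩ := Pool.Agent.Y121.CF.exists_int_point F hF
    exact ⟨_, hF' n hn⟩
  have hle : ∀ (z : 𝒜.Corr) (Q P : ℚ[X]), 𝒜.IsZeta z Q P →
      P.natDegree + 𝒜.dist ≤ finrank K 𝒜.Plus ∧ Q.natDegree + 𝒜.dist ≤ finrank K 𝒜.Minus := by
    intro z Q P h
    rw [hd]
    exact 𝒜.degree_bound s h
  refine ⟨⟨⟨C⟩, ⟨X⟩, ⟨Y⟩, s, hd.symm⟩, ?_, fun z => 𝒜.exists_isZeta z, hle, hgen, hex,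
    𝒜.cplus_iff, ?_⟩
  · intro N
    rw [hd]
    exact isLeast_error s N
  · rw [𝒜.cplus_iff]
    constructor
    · intro h0
      obtain ⟨z, hz⟩ := hex
      obtain ⟨Q, P, h⟩ := 𝒜.exists_isZeta z
      refine ⟨z, Q, P, h, ?_⟩
      have := (hz Q P h).1
      omega
    · rintro ⟨z, Q, P, h, h1⟩
      have := (hle z Q P h).1
      omega

end Pool.Agent.Results.MP_8f22fa_ag.CancellationNumber
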