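import Pool.Agent.H858.CG.NC

/-!
# The distance of the even Künneth projector from the correspondences, for tensor products

For a smooth proper dg category `A` over a perfect field let `H(A)` be `HP_±(A)`, or `TP_±(A)` with `p`
inverted, with the coefficient field `K`, and let `d(A)` be the smallest rank of an operator `π_+ - u`,
where `u` is a `K`-combination of the operators of elements of `K_0(Aᵒᵖ ⊗ A)`. Let `b(A) = dim H(A)` and
let `r(A)` be the rank of `K_0(A)` modulo numerical equivalence.

* `d(A) = 0` if and only if `C^+_nc(A)` holds.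
* `r(B) d(A) ≤ d(A ⊗ B) ≤ d(A) b(B) + b(A) d(B) - 2 d(A) d(B)` for all `A` and `B`.
* `d(A ⊗ B) = b(B) d(A)` if `H(B)` is spanned by the classes of `K_0(B)` modulo numerical equivalence,
  `r(B) = b(B)`, for instance if `B` has a full exceptional collection.
* `r(A^{⊗ n}) d(A) ≤ d(A^{⊗ (n + 1)})` and `2 d(A^{⊗ n}) ≤ b(A)^n - (b(A) - 2 d(A))^n`.
* `C^+_nc(A)` holds if `d(A ⊗ B) < r(B)` for one `B`.

The lower bound: dual systems in `K_0(B)` and in the dual turn an operator `θ` on `H(A ⊗ B)` into a
matrix of size `r(B)` over the algebra of the algebraic operators on `H(A)`, and `θ - π_+` has at least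
the rank of the matrix `(θ_st - δ_st π_+)`. Then induction on the size, by an elimination with the
pivot given by the Fitting decomposition of `θ_11`; although `π_+` is not in the algebra, the pivot can
be inverted by an element of the algebra on the image of `(ε - π_+)^2`, where `ε` is the Fitting
projector of `θ_11`, and `rank (ε - π_+) ≥ d(A)`.
-/

universe v

namespace Pool.Agent.Results.MP_8f22fa_ag.DistanceOfTensorProducts

open Pool.Agent.Y121.ZI Pool.Agent.Y121.ZI.NCTheory
open Pool.Agent.H858.CG.NC (ncDist bdim CPlus)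

/-- **The distance of the even Künneth projector from the correspondences, for tensor products.** -/
theorem result {K : Type} [Field K] [CharZero K] (T : NCTheory.{0, v, 0} K) (A : T.Obj) :
    (ncDist T A = 0 ↔ CPlus T A) ∧
    (∀ B : T.Obj, T.rank B * ncDist T A ≤ ncDist T (T.ten A B) ∧
      ncDist T (T.ten A B) + 2 * (ncDist T A * ncDist T B) ≤
        ncDist T A * bdim T B + bdim T A * ncDist T B ∧
      (T.rank B = bdim T B → ncDist T (T.ten A B) = T.rank B * ncDist T A) ∧
      (ncDist T (T.ten A B) < T.rank B → CPlus T A)) ∧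
    ∀ n : ℕ, T.rank (T.pow A n) * ncDist T A ≤ ncDist T (T.pow A (n + 1)) ∧
      2 * ncDist T (T.pow A n) + (bdim T A - 2 * ncDist T A) ^ n ≤ bdim T A ^ n := by
  refine ⟨Pool.Agent.H858.CG.NC.nc_zero T A, fun B => ⟨Pool.Agent.H858.CG.NC.nc_lower T A B,
    Pool.Agent.H858.CG.NC.nc_upper T A B, Pool.Agent.H858.CG.NC.nc_cellular T A B, fun h => ?_⟩,
    fun n => ⟨Pool.Agent.H858.CG.NC.nc_lower T A (T.pow A n),
      Pool.Agent.H858.CG.NC.nc_pow T A n⟩⟩
  rw [CPlus, ← Pool.Agent.H858.CG.NC.nc_zero T A]
  by_contra hne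
  have h1 := Pool.Agent.H858.CG.NC.nc_lower T A B
  have h2 : T.rank B * 1 ≤ T.rank B * ncDist T A :=
    Nat.mul_le_mul_left _ (Nat.one_le_iff_ne_zero.2 hne)
  omega

end Pool.Agent.Results.MP_8f22fa_ag.DistanceOfTensorProducts
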