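import Pool.Agent.H839.PZ.One

/-!
# The conjecture C⁺_nc for one geometric dg category and finitely many networks of maximal degree three

Let `F` be a perfect field, `k` an algebraic extension of `F` (for instance `k = F`, or the algebraic
closure), `S` a smooth projective scheme over `F`, and `𝒜` **one** smooth proper dg category over `k` such
that `U(𝒜)_ℚ` is a direct factor of `U(perf_dg(S_k))_ℚ` in `NChow(k)_ℚ`, for instance an admissible
subcategory of `perf_dg(S_k)`: there are morphisms `ι : U(𝒜) → U(perf(S_k))` and `ρ` back with
`ρ ∘ ι = 1`. The conjecture `C⁺_nc(𝒜)` says that the even Künneth projector `π_+` of `V = HP_±(𝒜)`, or of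
`V = TP_±(𝒜)_{1/p}`, is algebraic.

For a smooth projective scheme `Y` over `F` let `A(Y)` be the image of `K_0(𝒜^op ⊗ perf_dg(Y_k))_ℚ` in the
space `Hom(V, V_Y)`, where `V_Y` is the realisation of `perf_dg(Y_k)`, and `B(Y) = A(Y) + A(Y) ∘ π_+`. Both
are additive functors of the Chow motive of `Y_k` which do not see Tate twists, and `A ⊆ B`; they are equal
if and only if `α ∘ π_+` is algebraic for all algebraic `α` (`EvenStable`). For a separated scheme `X` of
finite type over `F` let `W(X)` be the weight complex of `X_k` (Gillet, Soulé, Bondarko; for the cohomology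
with compact supports; `W(X) = h(X_k)` for smooth projective `X`), and put `A^i(X) = H^i(A(W(X)))`,
`B^i(X) = H^i(B(W(X)))`. `BijAll C X` says that the maps `A^i(X) → B^i(X)` are isomorphisms for all `i`.
(These data are the ones of the library result `FinitelyManyCubics` of this problem, where the same is done
with cubic hypersurfaces `T(x, y, z) = 1`.)

A network over `F` of maximal degree three is a finite simple graph with at most three neighbours at each
vertex, some of whose edges carry a prescribed weight (conductance) in `F`; the weights of the other edges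
are variables. Its scheme `Y_N` is the open subscheme of the affine space over `F` of these weights where
the Kirchhoff polynomial (the weighted number of the spanning trees, the determinant of the reduced Laplace
matrix) is not zero. If no weight is prescribed then it is the complement of a graph hypersurface.

**Theorem.** For each `S` there is a finite list `L` of networks over `F` of maximal degree three, which
depends only on `S` (not on `k`, on the realisation or on the dg category `𝒜`), such that `C⁺_nc(𝒜)` is true
if and only if the maps `A^i(Y_N) → B^i(Y_N)` are isomorphisms for the finitely many networks `N` in `L`. If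
`F` is a prime field, the same is true with a finite list of graphs of maximal degree three without
prescribed weights. If `C⁺_nc(𝒜)` is true, the maps are isomorphisms for all networks and graphs of maximal
degree three.
-/

set_option autoImplicit false

open CategoryTheory CategoryTheory.Limits AlgebraicGeometry Pool.Agent.Y116.UV Pool.Agent.Z125.UN
  Pool.Agent.Q193.LT Pool.Agent.Q68.OV Pool.Agent.H839.PZ

universe w

namespace Pool.Agent.Results.MP_8f22fa_ag.FinitelyManyNetworks

/-- A smooth proper dg category `𝒜` over `k` whose noncommutative motive is a direct factor of that of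
`S_k`, and the schemes `Y_k`, for schemes `Y` over `F`; `V` is the realisation of `𝒜`. -/
structure NCData (F : Type) [Field F] (S : Sch F) where
  /-- the linear maps from `V` to the realisation of `perf_dg(Y_k)` -/
  E : Sch F → ModuleCat.{w} ℚ
  /-- the realisations of the morphisms from `U(𝒜)_ℚ` to `U(perf_dg(Y_k))_ℚ` -/
  alg : ∀ Y : Sch F, Submodule ℚ (E Y)
  /-- the linear endomorphisms of `V` -/
  M : ModuleCat.{w} ℚ
  /-- the realisations of the endomorphisms of `U(𝒜)_ℚ` -/
  algM : Submodule ℚ M
  /-- the composition `α ∘ β` -/
  comp : ∀ Y, E Y →ₗ[ℚ] M →ₗ[ℚ] E Y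
  /-- the realisation of the inclusion `ι` of `U(𝒜)_ℚ` in `U(perf_dg(S_k))_ℚ` -/
  incl : E S
  /-- the composition `β ↦ ρ ∘ β` with the projection `ρ` -/
  retr : E S →ₗ[ℚ] M
  /-- the even Künneth projector of `V` -/
  even : M

variable {F : Type} [Field F] {S : Sch F}

/-- Algebraic classes are closed under compositions, `ι` and `ρ` are algebraic, and
`ρ ∘ (ι ∘ π_+) = π_+`. -/
structure IsNC (D : NCData.{w} F S) : Prop where
  incl_mem : D.incl ∈ D.alg S
  comp_mem : ∀ Y, SmoothProj Y → ∀ α ∈ D.alg Y, ∀ β ∈ D.algM, D.comp Y α β ∈ D.alg Y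
  retr_mem : ∀ α ∈ D.alg S, D.retr α ∈ D.algM
  retr_comp : D.retr (D.comp S D.incl D.even) = D.even

/-- The conjecture `C⁺_nc(𝒜)`: some endomorphism of `U(𝒜)_ℚ` realises the even Künneth projector. -/
def CPlusNC (D : NCData.{w} F S) : Prop := D.even ∈ D.algM

/-- `α ∘ π_+` is algebraic for all morphisms `α` from `U(𝒜)` to `U(perf_dg(Y_k))`. -/
def EvenStable (D : NCData.{w} F S) (Y : Sch F) : Prop :=
  ∀ α ∈ D.alg Y, D.comp Y α D.even ∈ D.alg Y

/-- The standard properties of `A^i`, `B^i` and of the maps between them: long exact sequences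
`⋯ → A^i(U) → A^i(X) → A^i(Z) → A^{i+1}(U) → ⋯`, `A^i(E) = A^i(U)` for affine bundles, and `A^i(X)` is a
direct factor of `A^{i+1}(X × 𝔾_m)`. -/
def IsWeightNC (C : PairData.{w} F ℤ ℚ) : Prop :=
  IsPair C (Equiv.addRight 1) (Equiv.refl ℤ) (Equiv.addRight 1)

/-- **The conjecture C⁺_nc for one geometric dg category and finitely many networks.** See the
explanations above; `zero` is the known case of dimension zero. -/
theorem result {F : Type} [Field F] [PerfectField F] {S : Sch F} (hS : SmoothProj S) :
    ∃ (L : List (Net F)) (G : List Gph),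
      ∀ (D : NCData.{w} F S) (C : PairData.{w} F ℤ ℚ), IsNC D → IsWeightNC C → WeightGen C →
        (∀ Y, SmoothProj Y → (BijAll C Y ↔ EvenStable D Y)) →
        (zero : ∀ Y : Sch F, SmoothProj Y → topologicalKrullDim Y.left ≤ (0 : ℕ) → BijAll C Y) →
        (CPlusNC D ↔ ∀ N ∈ L, BijAll C N.co) ∧
        (Frac F → (CPlusNC D ↔ ∀ g ∈ G, BijAll C (g.co F))) ∧
        (CPlusNC D → (∀ N : Net F, BijAll C N.co) ∧ ∀ g : Gph, BijAll C (g.co F)) := by
  obtain ⟨L, G, hL, hG⟩ := lists S hS.ft
  refine ⟨L, G, fun D C hD hC hg bij zero => ?_⟩
  have point : BijAll C (aff F F) := point_of_zero hg zero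
  have hback : BijAll C S → CPlusNC D := by
    intro h
    have h1 := hD.retr_mem _ ((bij S hS).mp h D.incl hD.incl_mem)
    rwa [hD.retr_comp] at h1
  have hall : CPlusNC D → ∀ X : Sch F, FT True X → BijAll C X := fun h =>
    all_of_sp hg hC point fun Y hY => (bij Y hY).mpr fun α hα => hD.comp_mem Y hY α hα _ h
  exact ⟨⟨fun h N _ => hall h _ N.ft, fun h => hback (hL _ (bnd_pair hC point) h)⟩,
    fun hF => ⟨fun h g _ => hall h _ g.ft, fun h => hback (hG hF _ (bnd_pair hC point) h)⟩,
    fun h => ⟨fun N => hall h _ N.ft, fun g => hall h _ g.ft⟩⟩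

end Pool.Agent.Results.MP_8f22fa_ag.FinitelyManyNetworks
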